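import Pool.Agent.Q197.RA.Loc
import Pool.Agent.TH594.KP.Main

/-!
# Tails and the variance bound for densities of bounded support
-/

set_option autoImplicit false

namespace Pool.Agent.Q197.RA

open MeasureTheory Set
open scoped ENNReal InnerProductSpace
open Pool.Agent.H212R2.KLS (mu Bdd)
open Pool.Agent.H888R2.KT (LC St tw)
open Pool.Agent.H888R2.KT.G2x (mu_indicator integral_mu_mul mu_mono intg)
open Pool.Agent.TH594.KP (V GD GG swp Bs mem_Bs card_Bs_pos ev swp_apply inner_ev gd_indicator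
  tw_cont gd_smul SC)
open Pool.Agent.TH597.HX (dev)
open Pool.Agent.TH597.HX.Loc (ee)

variable {κ ι : Type} [Fintype κ] [Fintype ι] [DecidableEq ι] {n q : ℕ}
variable {b : ι → Fin n} {u : ι → V κ} {e : Fin q → V κ}

theorem mu_mul {F : Type*} [MeasureSpace F] (g : F → ℝ) (hm : Measurable g) (c : ℝ)
    (hc : 0 ≤ c) : mu (fun x => c * g x) = ENNReal.ofReal c • mu g := by
  rw [mu, mu, ← withDensity_smul _ hm.ennreal_ofReal]
  congr 1
  ext x
  simp [ENNReal.ofReal_mul hc]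

theorem ball {κ : Type} [Fintype κ] {ρ : V κ → ℝ} (hm : Measurable ρ) (hb : Bdd ρ) :
    ∃ R, (mu ρ) (Metric.closedBall 0 R)ᶜ = 0 := by
  obtain ⟨R, hR⟩ := hb
  refine ⟨R, ?_⟩
  rw [mu, withDensity_apply_eq_zero' (hm.ennreal_ofReal.aemeasurable)]
  refine measure_mono_null ?_ (measure_empty (μ := (volume : Measure (V κ))))
  intro x hx
  refine hx.1 ?_
  have : R < ‖x‖ := by simpa using hx.2
  simp [hR x this]

theorem swap_prod' {ι : Type} [DecidableEq ι] (k l : ι) (p : ι × Fin 1) :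
    Equiv.swap (k, (0 : Fin 1)) (l, (0 : Fin 1)) p = (Equiv.swap k l p.1, p.2) := by
  obtain ⟨i, c⟩ := p
  have hc : c = 0 := Subsingleton.elim _ _
  subst hc
  by_cases h1 : i = k
  · subst h1
    rw [Equiv.swap_apply_left, Equiv.swap_apply_left]
  · by_cases h2 : i = l
    · subst h2
      rw [Equiv.swap_apply_right, Equiv.swap_apply_right]
    · rw [Equiv.swap_apply_of_ne_of_ne, Equiv.swap_apply_of_ne_of_ne h1 h2]
      · intro h
        exact h1 (congrArg Prod.fst h)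
      · intro h
        exact h2 (congrArg Prod.fst h)

theorem norm_u_le (hu : Sx b u) (i : ι) : ‖u i‖ ^ 2 ≤ 1 := by
  rw [← real_inner_self_eq_norm_sq, hu.gram i i]
  simp only [if_true]
  have : (0 : ℝ) ≤ 1 / ((Bs b (b i)).card : ℝ) := by positivity
  linarith

theorem cont_u (w : V κ) : Continuous fun x : V κ => ⟪w, x⟫_ℝ := continuous_const.inner continuous_id

/-- tail of the sum of the distances, one block -/
theorem tail1 : ∃ C : ℝ, 0 < C ∧ ∀ {κ ι : Type} [Fintype κ] [Fintype ι] [DecidableEq ι] {n q : ℕ}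
    {b : ι → Fin n} {u : ι → V κ} {e : Fin q → V κ}, Function.Surjective b → Sx b u → Fx u e →
    ∀ ρ : V κ → ℝ, GD (GS b u) ρ → Bdd ρ → mu ρ univ = 1 → ∀ s : ℝ, 0 < s →
    (∀ θ : V κ, ∫ x, ⟪θ, x⟫_ℝ ^ 2 ∂(mu ρ) ≤ s * ‖θ‖ ^ 2) → ∀ (j : Fin n) (l : ℝ), 1 ≤ l →
    mu ρ {x : V κ | l * (C * Real.sqrt s) * ((Bs b j).card : ℝ) ^ 2 < Dv b u j x} ≤
      ENNReal.ofReal (Real.exp (-((Bs b j).card * l))) := by
  obtain ⟨C, hC, H⟩ := Pool.Agent.TH148.HX.tail0
  refine ⟨2 * C, by positivity, ?_⟩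
  intro κ ι _ _ _ n q b u e hb hu he ρ hρ hbd h1 s hs hmom j l hl
  have hprob : IsProbabilityMeasure (mu ρ) := ⟨h1⟩
  have hball := ball hρ.meas hbd
  obtain ⟨δ, hδ⟩ : ∃ δ : ℝ, δ = Real.sqrt s := ⟨_, rfl⟩
  have hδ0 : 0 < δ := by rw [hδ]; exact Real.sqrt_pos.2 hs
  have hδ2 : δ ^ 2 = s := by rw [hδ]; exact Real.sq_sqrt hs.le
  have hne : mu ρ ≠ 0 := by
    intro h
    rw [h] at h1
    simp at h1
  have hL : LC ρ := ⟨hρ.nonneg, hρ.meas, hρ.logc, hbd, by rw [h1]; simp, hne⟩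
  have hG := gd_ex hb hu he hρ δ
  have hLC := lc_ex hb hu he hρ hL hδ0
  obtain ⟨c, hc⟩ : ∃ c : ℝ, c = (volume (cb n δ)).toReal := ⟨_, rfl⟩
  have hcv : ENNReal.ofReal c = volume (cb n δ) := by
    rw [hc, ENNReal.ofReal_toReal (cb_lt_top n hδ0).ne]
  have hc0 : 0 < c := by
    rw [hc]
    exact ENNReal.toReal_pos (cb_pos n hδ0).ne' (cb_lt_top n hδ0).ne
  have hci : 0 ≤ c⁻¹ := (inv_pos.2 hc0).le
  have hG' : GD (GG (Fin 1) (bb q b)) (fun y => c⁻¹ * ex hb hu he δ ρ y) := gd_smul hG c⁻¹ hci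
  have hmu := mu_mul (ex hb hu he δ ρ) hG.meas c⁻¹ hci
  have hmass : ∀ D : Set (V κ), MeasurableSet D →
      mu (fun y => c⁻¹ * ex hb hu he δ ρ y) {y | A hb hu he y ∈ D} = mu ρ D := by
    intro D hD
    rw [hmu, Measure.smul_apply, mass_ex hb hu he hρ D hD, smul_eq_mul, ← hcv, mul_comm,
      mul_assoc, ← ENNReal.ofReal_mul hc0.le, mul_inv_cancel₀ hc0.ne', ENNReal.ofReal_one, mul_one]
  have h1' : mu (fun y => c⁻¹ * ex hb hu he δ ρ y) univ = 1 := by
    have h2 := hmass univ MeasurableSet.univ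
    have h3 : {y | A hb hu he y ∈ (univ : Set (V κ))} = univ := by ext y; simp
    rw [h3, h1] at h2
    exact h2
  have hB' : Bdd (fun y => c⁻¹ * ex hb hu he δ ρ y) := by
    obtain ⟨R, hR⟩ := hLC.bdd
    exact ⟨R, fun x hx => by simp only [hR x hx, mul_zero]⟩
  obtain ⟨S, hS⟩ : ∃ S : Finset ((ι ⊕ Fin q) × Fin 1), S = (Bs b j).map
      ⟨fun i => (Sum.inl i, (0 : Fin 1)), fun i k h => Sum.inl_injective (congrArg Prod.fst h)⟩ :=
    ⟨_, rfl⟩
  have hcard : S.card = (Bs b j).card := by rw [hS, Finset.card_map]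
  have hsum : ∀ y : V ((ι ⊕ Fin q) × Fin 1),
      ∑ i ∈ S, ∑ k ∈ S, |y i - y k| = Dv b u j (A hb hu he y) := by
    intro y
    rw [← dev_inl hb hu he, hS]
    unfold dev
    simp only [Bs_inl, Finset.sum_map, Function.Embedding.coeFn_mk]
  have hinv : ∀ k ∈ S, ∀ l ∈ S, ∀ x y : V ((ι ⊕ Fin q) × Fin 1),
      (∀ i, y i = x (Equiv.swap k l i)) →
      c⁻¹ * ex hb hu he δ ρ y = c⁻¹ * ex hb hu he δ ρ x := by
    intro k hk l hl x y hxy
    rw [hS, Finset.mem_map] at hk hl
    obtain ⟨k', hk', rfl⟩ := hk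
    obtain ⟨l', hl', rfl⟩ := hl
    have e1 : y = swp (Sum.inl k') (Sum.inl l') x := by
      ext p
      rw [hxy p, swp_apply]
      exact congrArg (fun q => x q) (swap_prod' _ _ p)
    rw [e1]
    refine hG'.inv _ ⟨Sum.inl k', Sum.inl l', ?_, rfl⟩ x
    rw [bb_inl, (mem_Bs _ _ _).1 hk', (mem_Bs _ _ _).1 hl']
  have hfi : IsFiniteMeasure (mu (ex hb hu he δ ρ)) := ⟨lt_top_iff_ne_top.2 hLC.fin⟩
  have hball' := ball hG.meas hLC.bdd
  have hcoord : ∀ p ∈ S, ∫ y, y p ^ 2 ∂(mu (fun y => c⁻¹ * ex hb hu he δ ρ y)) ≤ 4 * s := by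
    intro p hp
    rw [hS, Finset.mem_map] at hp
    obtain ⟨i, hi, rfl⟩ := hp
    simp only [Function.Embedding.coeFn_mk]
    have hbi : b i = j := (mem_Bs _ _ _).1 hi
    rw [hmu, integral_smul_measure, ENNReal.toReal_ofReal hci, smul_eq_mul]
    have h2 : ∫ y, y (Sum.inl i, 0) ^ 2 ∂(mu (ex hb hu he δ ρ)) ≤
        ∫ y, ((2 * ⟪u i, A hb hu he y⟫_ℝ ^ 2) * 1 + 1 * (2 * T hb hu he y j ^ 2))
          ∂(mu (ex hb hu he δ ρ)) := by
      refine integral_mono (intg _ hball' _ ?_) (intg _ hball' _ ?_) fun y => ?_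
      · exact ((EuclideanSpace.proj (Sum.inl i, (0 : Fin 1)) :
          V ((ι ⊕ Fin q) × Fin 1) →L[ℝ] ℝ).continuous).pow 2
      · exact ((continuous_const.mul (((cont_u (u i)).comp (A hb hu he).continuous).pow 2)).mul
          continuous_const).add (continuous_const.mul (continuous_const.mul
          ((((EuclideanSpace.proj j : V (Fin n) →L[ℝ] ℝ).comp (T hb hu he)).continuous).pow 2)))
      · simp only
        rw [coord_inl hb hu he, hbi]
        have h3 : (T hb hu he y j / Real.sqrt (Bs b j).card) ^ 2 ≤ T hb hu he y j ^ 2 := by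
          rw [div_pow, Real.sq_sqrt (Nat.cast_nonneg _)]
          refine div_le_self (sq_nonneg _) ?_
          have h4 : 1 ≤ (Bs b j).card := Finset.card_pos.2 ⟨i, hi⟩
          exact Nat.one_le_cast.2 h4
        nlinarith [sq_nonneg (⟪u i, A hb hu he y⟫_ℝ - T hb hu he y j / Real.sqrt (Bs b j).card)]
    have hcA : Continuous fun y : V ((ι ⊕ Fin q) × Fin 1) => (2 * ⟪u i, A hb hu he y⟫_ℝ ^ 2) * 1 :=
      (continuous_const.mul (((cont_u (u i)).comp (A hb hu he).continuous).pow 2)).mul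
        continuous_const
    have hcT : Continuous fun y : V ((ι ⊕ Fin q) × Fin 1) => 1 * (2 * T hb hu he y j ^ 2) :=
      continuous_const.mul (continuous_const.mul
        ((((EuclideanSpace.proj j : V (Fin n) →L[ℝ] ℝ).comp (T hb hu he)).continuous).pow 2))
    rw [integral_add (intg _ hball' _ hcA) (intg _ hball' _ hcT),
      int_ex hb hu he hρ δ (fun x => 2 * ⟪u i, x⟫_ℝ ^ 2) (fun _ => 1),
      int_ex hb hu he hρ δ (fun _ => 1) (fun t => 2 * t j ^ 2)] at h2
    have h4 : ∫ t, (cb n δ).indicator (fun _ => (1 : ℝ)) t = c := by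
      rw [integral_indicator (cb_meas n δ), setIntegral_const, hc, smul_eq_mul, mul_one]
      rfl
    have h5 : ∫ t : V (Fin n), (cb n δ).indicator (fun t => 2 * t j ^ 2) t ≤ 2 * s * c := by
      rw [← h4, ← integral_const_mul]
      have hcomp : IsCompact (cb n δ) :=
        (isCompact_closedBall _ _).of_isClosed_subset (cb_closed n δ) (cb_bdd n hδ0)
      have hI1 : Integrable ((cb n δ).indicator (fun t : V (Fin n) => 2 * t j ^ 2)) :=
        (integrable_indicator_iff (cb_meas n δ)).2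
          ((continuous_const.mul (((EuclideanSpace.proj j :
            V (Fin n) →L[ℝ] ℝ).continuous).pow 2)).continuousOn.integrableOn_compact hcomp)
      have hI2 : Integrable ((cb n δ).indicator (fun _ : V (Fin n) => (1 : ℝ))) :=
        (integrable_indicator_iff (cb_meas n δ)).2
          (continuous_const.continuousOn.integrableOn_compact hcomp)
      refine integral_mono hI1 (hI2.const_mul _) fun t => ?_
      by_cases h : t ∈ cb n δ
      · simp only [indicator_of_mem h]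
        have h6 := h j
        have h7 : t j ^ 2 ≤ δ ^ 2 := by
          rw [← sq_abs]
          exact pow_le_pow_left₀ (abs_nonneg _) h6 2
        rw [hδ2] at h7
        linarith
      · simp only [indicator_of_notMem h, mul_zero, le_refl]
    have h6 : ∫ x, 2 * ⟪u i, x⟫_ℝ ^ 2 ∂(mu ρ) ≤ 2 * s := by
      rw [integral_const_mul]
      have h7 := hmom (u i)
      have h8 := norm_u_le hu i
      nlinarith
    have h7 : ∫ _x : V κ, (1 : ℝ) ∂(mu ρ) = 1 := by simp
    rw [h4, h7, one_mul] at h2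
    have h8 : (∫ x, 2 * ⟪u i, x⟫_ℝ ^ 2 ∂(mu ρ)) * c ≤ 2 * s * c :=
      mul_le_mul_of_nonneg_right h6 hc0.le
    have h9 : ∫ y, y (Sum.inl i, 0) ^ 2 ∂(mu (ex hb hu he δ ρ)) ≤ 4 * s * c := by linarith
    calc c⁻¹ * ∫ y, y (Sum.inl i, 0) ^ 2 ∂(mu (ex hb hu he δ ρ)) ≤ c⁻¹ * (4 * s * c) :=
          mul_le_mul_of_nonneg_left h9 hci
      _ = 4 * s := by field_simp
  have key := H S (fun y => c⁻¹ * ex hb hu he δ ρ y) hG'.nonneg hG'.meas hG'.logc hinv hB' h1'
    (4 * s) (by positivity) hcoord l hl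
  have hDc : Continuous (Dv b u j) := by
    unfold Dv
    exact continuous_finsetSum _ fun i _ => continuous_finsetSum _ fun k _ =>
      ((cont_u (u i)).sub (cont_u (u k))).abs
  have hDm : MeasurableSet {x : V κ | l * (2 * C * Real.sqrt s) * ((Bs b j).card : ℝ) ^ 2 <
      Dv b u j x} := measurableSet_lt measurable_const hDc.measurable
  rw [← hmass _ hDm]
  have hsq : Real.sqrt (4 * s) = 2 * Real.sqrt s := by
    rw [show (4 : ℝ) * s = 2 ^ 2 * s by ring, Real.sqrt_mul (by positivity),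
      Real.sqrt_sq (by norm_num)]
  rw [hcard] at key
  simp only [hsum, hsq] at key
  refine le_trans (le_of_eq ?_) key
  congr 1
  ext y
  show l * (2 * C * Real.sqrt s) * _ < _ ↔ l * (C * (2 * Real.sqrt s)) * _ < _
  rw [show l * (2 * C * Real.sqrt s) = l * (C * (2 * Real.sqrt s)) by ring]

variable (b u) in
/-- level sets -/
def lvl (a : ℝ) : Set (V κ) := {x | ∀ s, Dv b u s x ≤ a * ((Bs b s).card : ℝ) ^ 2}

theorem Dv_cont (s : Fin n) : Continuous (Dv b u s) := by
  unfold Dv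
  exact continuous_finsetSum _ fun i _ => continuous_finsetSum _ fun k _ =>
    ((cont_u (u i)).sub (cont_u (u k))).abs

theorem lvl_closed (a : ℝ) : IsClosed (lvl b u a) := by
  unfold lvl
  rw [Set.ofPred_forall]
  exact isClosed_iInter fun s => isClosed_le (Dv_cont s) continuous_const

theorem lvl_convex (a : ℝ) : Convex ℝ (lvl b u a) := by
  intro x hx y hy c d hc hd hcd s
  have h1 : Dv b u s (c • x + d • y) ≤ c * Dv b u s x + d * Dv b u s y := by
    unfold Dv
    rw [Finset.mul_sum, Finset.mul_sum, ← Finset.sum_add_distrib]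
    refine Finset.sum_le_sum fun i _ => ?_
    rw [Finset.mul_sum, Finset.mul_sum, ← Finset.sum_add_distrib]
    refine Finset.sum_le_sum fun k _ => ?_
    simp only [inner_add_right, inner_smul_right]
    calc |c * ⟪u i, x⟫_ℝ + d * ⟪u i, y⟫_ℝ - (c * ⟪u k, x⟫_ℝ + d * ⟪u k, y⟫_ℝ)|
        = |c * (⟪u i, x⟫_ℝ - ⟪u k, x⟫_ℝ) + d * (⟪u i, y⟫_ℝ - ⟪u k, y⟫_ℝ)| := by
          congr 1; ring
      _ ≤ |c * (⟪u i, x⟫_ℝ - ⟪u k, x⟫_ℝ)| + |d * (⟪u i, y⟫_ℝ - ⟪u k, y⟫_ℝ)| := abs_add_le _ _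
      _ = _ := by rw [abs_mul, abs_mul, abs_of_nonneg hc, abs_of_nonneg hd]
  have h2 := hx s
  have h3 := hy s
  calc Dv b u s (c • x + d • y) ≤ c * Dv b u s x + d * Dv b u s y := h1
    _ ≤ c * (a * ((Bs b s).card : ℝ) ^ 2) + d * (a * ((Bs b s).card : ℝ) ^ 2) := by gcongr
    _ = _ := by rw [← add_mul, hcd, one_mul]

theorem lvl_mono {a a' : ℝ} (h : a ≤ a') : lvl b u a ⊆ lvl b u a' := fun _ hx s =>
  (hx s).trans (mul_le_mul_of_nonneg_right h (by positivity))

theorem Dv_inv (hu : Sx b u) (g : V κ ≃ₗᵢ[ℝ] V κ) (hg : g ∈ GS b u) (s : Fin n) (x : V κ) :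
    Dv b u s (g x) = Dv b u s x := by
  obtain ⟨k, l, hkl, hgx⟩ := hg
  rw [hgx]
  by_cases h : k = l
  · subst h
    simp
  have hb' : ∀ i, b (Equiv.swap k l i) = b i := by
    intro i
    by_cases h1 : i = k
    · subst h1
      rw [Equiv.swap_apply_left, hkl]
    · by_cases h2 : i = l
      · subst h2
        rw [Equiv.swap_apply_right, hkl]
      · rw [Equiv.swap_apply_of_ne_of_ne h1 h2]
  have hsum : ∀ F : ι → ℝ, ∑ i ∈ Bs b s, F (Equiv.swap k l i) = ∑ i ∈ Bs b s, F i := by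
    intro F
    refine Finset.sum_equiv (Equiv.swap k l) (fun i => ?_) fun i _ => rfl
    rw [mem_Bs, mem_Bs, hb']
  unfold Dv
  simp only [refl_u hu k l hkl h]
  rw [← hsum fun i => ∑ j ∈ Bs b s, |⟪u i, x⟫_ℝ - ⟪u j, x⟫_ℝ|]
  refine Finset.sum_congr rfl fun i _ => ?_
  exact hsum fun j => |⟪u (Equiv.swap k l i), x⟫_ℝ - ⟪u j, x⟫_ℝ|

theorem gd_lvl (hu : Sx b u) {ρ : V κ → ℝ} (hρ : GD (GS b u) ρ) (a : ℝ) :
    GD (GS b u) ((lvl b u a).indicator ρ) :=
  gd_indicator hρ _ (lvl_convex a) (lvl_closed a).measurableSet fun g hg x =>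
    forall_congr' fun s => by rw [Dv_inv hu g hg]

/-- the variance bound for densities of bounded support -/
theorem sc : ∃ C : ℝ, 0 < C ∧ ∀ {κ ι : Type} [Fintype κ] [Fintype ι] [DecidableEq ι] {n q m : ℕ}
    {b : ι → Fin n} {u : ι → V κ} {e : Fin q → V κ}, Function.Surjective b → Sx b u → Fx u e →
    1 ≤ n → 1 ≤ m → (∀ s, m ≤ (Bs b s).card) →
      SC (GS b u) (C * ((q + 1) * (1 + Real.log n / m) ^ 2)) := by
  obtain ⟨C₁, hC₁, hunt⟩ := Pool.Agent.H888R2.KT.untiltq
  obtain ⟨C₂, hC₂, hT⟩ := tail1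
  obtain ⟨C₃, hC₃, hloc⟩ := loc1
  refine ⟨40000 * (C₁ * (4 * C₃ * C₂ ^ 2 + 2)), by positivity, ?_⟩
  intro κ ι _ _ _ n q m b u e hb hu he hn hm hcard ρ hρ hbd h1 s hs hmom f hf hf1
  have hprob : IsProbabilityMeasure (mu ρ) := ⟨h1⟩
  have hn1 : (1 : ℝ) ≤ n := by exact_mod_cast hn
  have hn0 : (0 : ℝ) < n := by linarith
  have hm1 : (1 : ℝ) ≤ m := by exact_mod_cast hm
  have hm0 : (0 : ℝ) < m := by linarith
  have hlog : 0 ≤ Real.log n := Real.log_nonneg hn1
  have hss : 0 < Real.sqrt s := Real.sqrt_pos.2 hs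
  obtain ⟨Λ, hΛ⟩ : ∃ Λ : ℝ, Λ = 1 + Real.log n / m := ⟨_, rfl⟩
  have hΛ1 : 1 ≤ Λ := by
    rw [hΛ]
    have : 0 ≤ Real.log n / m := by positivity
    linarith
  rw [← hΛ]
  have hball := ball hρ.meas hbd
  have htail : ∀ t : ℝ, 1 ≤ t →
      mu ρ (lvl b u ((1 + (t + Real.log n) / m) * (C₂ * Real.sqrt s)))ᶜ ≤
        ENNReal.ofReal (Real.exp (-(t / 2))) := by
    intro t ht
    obtain ⟨l, hl⟩ : ∃ l : ℝ, l = 1 + (t + Real.log n) / m := ⟨_, rfl⟩
    have hl1 : 1 ≤ l := by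
      rw [hl]
      have : 0 ≤ (t + Real.log n) / m := by positivity
      linarith
    rw [← hl]
    have hsub : (lvl b u (l * (C₂ * Real.sqrt s)))ᶜ ⊆ ⋃ j ∈ (Finset.univ : Finset (Fin n)),
        {x : V κ | l * (C₂ * Real.sqrt s) * ((Bs b j).card : ℝ) ^ 2 < Dv b u j x} := by
      intro x hx
      by_contra hc
      refine hx fun j => ?_
      by_contra h2
      rw [not_le] at h2
      refine hc ?_
      simp only [mem_iUnion]
      exact ⟨j, Finset.mem_univ _, h2⟩
    refine (measure_mono hsub).trans ((measure_biUnion_finset_le _ _).trans ?_)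
    have h3 : ∀ j ∈ (Finset.univ : Finset (Fin n)),
        mu ρ {x : V κ | l * (C₂ * Real.sqrt s) * ((Bs b j).card : ℝ) ^ 2 < Dv b u j x} ≤
          ENNReal.ofReal (Real.exp (-(m * l))) := by
      intro j _
      refine (hT hb hu he ρ hρ hbd h1 s hs hmom j l hl1).trans (ENNReal.ofReal_le_ofReal ?_)
      refine Real.exp_le_exp.2 (neg_le_neg (mul_le_mul_of_nonneg_right ?_ (by linarith)))
      exact_mod_cast hcard j
    refine (Finset.sum_le_sum h3).trans ?_
    rw [Finset.sum_const, Finset.card_univ, Fintype.card_fin, nsmul_eq_mul,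
      ← ENNReal.ofReal_natCast, ← ENNReal.ofReal_mul hn0.le]
    refine ENNReal.ofReal_le_ofReal ?_
    have e1 : -(m * l) = -(m + t) - Real.log n := by
      rw [hl]
      field_simp
      ring
    rw [e1, Real.exp_sub, Real.exp_log hn0, mul_div_cancel₀ _ hn0.ne']
    exact Real.exp_le_exp.2 (by linarith)
  have hmain := Pool.Agent.TH594.KP.Mul.multi0 (mu ρ) hball
    (fun t => lvl b u ((1 + (t + Real.log n) / m) * (C₂ * Real.sqrt s)))
    (fun t => (lvl_closed _).measurableSet)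
    (fun t t' htt => lvl_mono
      (mul_le_mul_of_nonneg_right (by
        have : (t + Real.log n) / m ≤ (t' + Real.log n) / m :=
          div_le_div_of_nonneg_right (by linarith) hm0.le
        linarith) (by positivity)))
    htail
    (C₁ * (4 * C₃ * C₂ ^ 2 + 2) * ((q + 1) * Λ ^ 2) * s) (by positivity)
    (fun t ht h hh => by
      have ht1 : 1 ≤ t := by linarith
      obtain ⟨a, ha⟩ : ∃ a : ℝ, a = (1 + (t + Real.log n) / m) * (C₂ * Real.sqrt s) := ⟨_, rfl⟩
      have hta := htail t ht1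
      rw [← ha] at hta ⊢
      have ha0 : 0 < a := by rw [ha]; positivity
      obtain ⟨U, hU'⟩ : ∃ U : Set (V κ), U = lvl b u a := ⟨_, rfl⟩
      have hUm : MeasurableSet U := by rw [hU']; exact (lvl_closed _).measurableSet
      rw [← hU'] at hta ⊢
      have hhalf : 1 / 2 ≤ (mu ρ U).toReal := by
        have h3 : (mu ρ).real Uᶜ ≤ Real.exp (-(t / 2)) := by
          rw [measureReal_def]
          exact ENNReal.toReal_le_of_le_ofReal (Real.exp_pos _).le hta
        rw [probReal_compl_eq_one_sub hUm] at h3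
        have h4 : Real.exp (-(t / 2)) ≤ 1 / 2 := by
          rw [Real.exp_neg, inv_le_comm₀ (Real.exp_pos _) (by norm_num)]
          have := Real.add_one_le_exp (t / 2)
          linarith
        rw [← measureReal_def]
        linarith
      have hD : GD (GS b u) (U.indicator ρ) := by rw [hU']; exact gd_lvl hu hρ a
      have hres : mu (U.indicator ρ) = (mu ρ).restrict U := mu_indicator ρ U hUm
      have hle : ∀ x, U.indicator ρ x ≤ ρ x :=
        fun x => Set.indicator_le_self' (fun _ _ => hρ.nonneg _) x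
      have hbU : Bdd (U.indicator ρ) := by
        obtain ⟨R, hR⟩ := hbd
        refine ⟨R, fun x hx => le_antisymm ?_ (hD.nonneg x)⟩
        rw [← hR x hx]
        exact hle x
      have hfinU : mu (U.indicator ρ) univ ≠ ⊤ := by
        have := (mu_mono ρ (U.indicator ρ) hle univ).trans_eq h1
        exact ne_top_of_le_ne_top ENNReal.one_ne_top this
      have hneU : mu (U.indicator ρ) ≠ 0 := by
        intro h0
        rw [hres] at h0
        have h2 : mu ρ U = 0 := by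
          rw [← Measure.restrict_apply_univ, h0]
          simp
        rw [h2] at hhalf
        norm_num at hhalf
      have hLC : LC (U.indicator ρ) := ⟨hD.nonneg, hD.meas, hD.logc, hbU, hfinU, hneU⟩
      have hsU : ∀ x, U.indicator ρ x ≠ 0 → ∀ s, Dv b u s x ≤ a * ((Bs b s).card : ℝ) ^ 2 := by
        intro x hx
        by_contra hc
        refine hx ?_
        have : x ∉ U := by rw [hU']; exact hc
        rw [Set.indicator_of_notMem this]
      obtain ⟨K, hK⟩ : ∃ K : ℝ, K = C₃ * a ^ 2 + 2 * s := ⟨_, rfl⟩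
      have hK0 : 0 < K := by rw [hK]; positivity
      obtain ⟨c₀, hc₀⟩ := hunt (U.indicator ρ) hLC e he.orth K hK0 (by
          intro j
          rw [hres, Measure.restrict_apply_univ]
          have h2 : ∫ x in U, ⟪e j, x⟫_ℝ ^ 2 ∂(mu ρ) ≤ ∫ x, ⟪e j, x⟫_ℝ ^ 2 ∂(mu ρ) :=
            setIntegral_le_integral (intg (mu ρ) hball _ (by fun_prop))
              (ae_of_all _ fun x => by positivity)
          have h3 := hmom (e j)
          rw [he.orth.1 j] at h3
          have h4 : 2 * s ≤ K := by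
            rw [hK]
            have : 0 ≤ C₃ * a ^ 2 := by positivity
            linarith
          have h5 : s ≤ K * (mu ρ U).toReal := by
            have h6 : K * (1 / 2) ≤ K * (mu ρ U).toReal :=
              mul_le_mul_of_nonneg_left hhalf hK0.le
            linarith
          show ∫ x in U, ⟪e j, x⟫_ℝ ^ 2 ∂(mu ρ) ≤ K * (mu ρ U).toReal
          linarith)
        (fun τ g hg => hloc hb hu he (U.indicator ρ) hD hLC a ha0 hsU K hK0
          (by rw [hK]; linarith) τ g hg) h hh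
      rw [hres] at hc₀
      refine ⟨c₀, hc₀.trans (mul_le_mul_of_nonneg_right ?_ (integral_nonneg fun x => by positivity))⟩
      have hsq := Real.sq_sqrt hs.le
      have e1 : a ≤ 2 * t * Λ * (C₂ * Real.sqrt s) := by
        rw [ha]
        refine mul_le_mul_of_nonneg_right ?_ (by positivity)
        have h2 : (t + Real.log n) / m ≤ t + t * (Real.log n / m) := by
          rw [add_div]
          have h3 : t / m ≤ t := div_le_self (by linarith) hm1
          have h4 : 1 * (Real.log n / m) ≤ t * (Real.log n / m) :=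
            mul_le_mul_of_nonneg_right ht1 (by positivity)
          linarith
        have h5 : 0 ≤ t * (Real.log n / m) := by positivity
        rw [hΛ]
        nlinarith
      have e2 : a ^ 2 ≤ 4 * C₂ ^ 2 * (Λ ^ 2 * s * t ^ 2) := by
        calc a ^ 2 ≤ (2 * t * Λ * (C₂ * Real.sqrt s)) ^ 2 := pow_le_pow_left₀ ha0.le e1 2
          _ = 4 * C₂ ^ 2 * (Λ ^ 2 * Real.sqrt s ^ 2 * t ^ 2) := by ring
          _ = _ := by rw [hsq]
      have e3 : s ≤ Λ ^ 2 * s * t ^ 2 := by
        have h2 : 1 ≤ Λ ^ 2 := one_le_pow₀ hΛ1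
        have h3 : 1 ≤ t ^ 2 := one_le_pow₀ ht1
        have h4 : 1 ≤ Λ ^ 2 * t ^ 2 := one_le_mul_of_one_le_of_one_le h2 h3
        nlinarith
      have e4 : K ≤ (4 * C₃ * C₂ ^ 2 + 2) * (Λ ^ 2 * s * t ^ 2) := by
        rw [hK]
        have : C₃ * a ^ 2 ≤ C₃ * (4 * C₂ ^ 2 * (Λ ^ 2 * s * t ^ 2)) :=
          mul_le_mul_of_nonneg_left e2 hC₃.le
        linarith
      calc C₁ * (q + 1) * K ≤ C₁ * (q + 1) * ((4 * C₃ * C₂ ^ 2 + 2) * (Λ ^ 2 * s * t ^ 2)) :=
            mul_le_mul_of_nonneg_left e4 (by positivity)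
        _ = C₁ * (4 * C₃ * C₂ ^ 2 + 2) * ((q + 1) * Λ ^ 2) * s * t ^ 2 := by ring)
    f hf hf1
  refine hmain.trans (le_of_eq ?_)
  ring

end Pool.Agent.Q197.RA
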