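import Pool.Agent.TH597.HX.Stm
import Pool.Agent.TH597.HX.Loc

/-!
# Orthogonal families of regular simplices: the embedding into a space of arrays

`u i`, `i : ι`, are the vertices of mutually orthogonal regular simplices centred at the origin, one
for each block of `b : ι → Fin n`; `e l`, `l : Fin q`, is an orthonormal basis of the orthogonal
complement.  The space `V κ` times `ℝ^n` is isometric to the space `V ((ι ⊕ Fin q) × Fin 1)`.
-/

set_option autoImplicit false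

namespace Pool.Agent.Q197.RA

open MeasureTheory Set
open scoped ENNReal InnerProductSpace
open Pool.Agent.H212R2.KLS (mu Bdd)
open Pool.Agent.H888R2.KT (LC St tw)
open Pool.Agent.TH594.KP (V GD GG swp Bs mem_Bs card_Bs_pos ev swp_apply)
open Pool.Agent.TH597.HX (dev)
open Pool.Agent.TH597.HX.Loc (ee)

variable {κ ι : Type} [Fintype κ] [Fintype ι] [DecidableEq ι] {n q : ℕ}

/-- vertices of mutually orthogonal regular simplices -/
structure Sx (b : ι → Fin n) (u : ι → V κ) : Prop where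
  gram : ∀ i j, ⟪u i, u j⟫_ℝ =
    (if i = j then 1 else 0) - (if b i = b j then 1 / ((Bs b (b i)).card : ℝ) else 0)

/-- orthonormal basis of the fixed space -/
structure Fx (u : ι → V κ) (e : Fin q → V κ) : Prop where
  orth : Orthonormal ℝ e
  perp : ∀ i l, ⟪u i, e l⟫_ℝ = 0
  full : ∀ x : V κ, (∀ i, ⟪u i, x⟫_ℝ = 0) → (∀ l, ⟪e l, x⟫_ℝ = 0) → x = 0

variable {b : ι → Fin n} {u : ι → V κ} {e : Fin q → V κ}

/-- `∑_i a_i G_ji` -/
theorem gram_sum (hu : Sx b u) (a : ι → ℝ) (j : ι) :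
    ∑ i, a i * ⟪u j, u i⟫_ℝ = a j - 1 / ((Bs b (b j)).card : ℝ) * ∑ i ∈ Bs b (b j), a i := by
  have h1 : ∀ i, a i * ⟪u j, u i⟫_ℝ = (if j = i then a i else 0) -
      (if b i = b j then 1 / ((Bs b (b j)).card : ℝ) * a i else 0) := by
    intro i
    rw [hu.gram j i]
    by_cases h : j = i
    · subst h
      simp
      ring
    · by_cases h2 : b j = b i
      · simp [h, h2]
        ring
      · have h3 : ¬ b i = b j := fun h4 => h2 h4.symm
        simp [h, h2, h3]
  rw [Finset.sum_congr rfl fun i _ => h1 i, Finset.sum_sub_distrib, Finset.sum_ite_eq,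
    if_pos (Finset.mem_univ _), ← Finset.sum_filter, ← Finset.mul_sum]
  rfl

theorem sum_u (hu : Sx b u) (s : Fin n) : ∑ i ∈ Bs b s, u i = 0 := by
  rw [← norm_eq_zero, ← sq_eq_zero_iff, ← real_inner_self_eq_norm_sq, sum_inner]
  refine Finset.sum_eq_zero fun j hj => ?_
  rw [inner_sum]
  have hs : b j = s := (mem_Bs b s j).1 hj
  have h1 := gram_sum hu (fun i => if b i = s then 1 else 0) j
  have h2 : ∑ i, (if b i = s then (1:ℝ) else 0) * ⟪u j, u i⟫_ℝ = ∑ i ∈ Bs b s, ⟪u j, u i⟫_ℝ := by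
    rw [Bs, Finset.sum_filter]
    refine Finset.sum_congr rfl fun i _ => ?_
    by_cases h : b i = s <;> simp [h]
  rw [← h2, h1, hs, if_pos rfl]
  have h3 : ∑ i ∈ Bs b s, (if b i = s then (1:ℝ) else 0) = (Bs b s).card := by
    rw [Finset.sum_congr rfl fun i hi => if_pos ((mem_Bs b s i).1 hi), Finset.sum_const,
      nsmul_eq_mul, mul_one]
  rw [h3]
  have h4 : ((Bs b s).card : ℝ) ≠ 0 := by
    have : 0 < (Bs b s).card := Finset.card_pos.2 ⟨j, hj⟩
    exact_mod_cast this.ne'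
  field_simp
  ring

/-- `∑_{i ∈ B_s} ⟪u_i, x⟫ = 0` -/
theorem sum_ux (hu : Sx b u) (s : Fin n) (x : V κ) : ∑ i ∈ Bs b s, ⟪u i, x⟫_ℝ = 0 := by
  rw [← sum_inner, sum_u hu, inner_zero_left]

/-- the frame identity -/
theorem frame (hu : Sx b u) (he : Fx u e) (x : V κ) :
    ∑ i, ⟪u i, x⟫_ℝ • u i + ∑ l, ⟪e l, x⟫_ℝ • e l = x := by
  refine (sub_eq_zero.1 (he.full _ (fun j => ?_) (fun m => ?_)))
  · rw [inner_sub_right, inner_add_right, inner_sum, inner_sum]
    simp_rw [inner_smul_right]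
    rw [gram_sum hu (fun i => ⟪u i, x⟫_ℝ) j, sum_ux hu]
    simp [he.perp]
  · rw [inner_sub_right, inner_add_right, inner_sum, inner_sum]
    simp_rw [inner_smul_right]
    have h1 : ∀ i, ⟪e m, u i⟫_ℝ = 0 := fun i => by rw [real_inner_comm]; exact he.perp i m
    have h2 : ∀ l, ⟪e m, e l⟫_ℝ = if m = l then 1 else 0 := orthonormal_iff_ite.1 he.orth m
    simp [h1, h2]

/-- the frame identity for the norm -/
theorem frame_norm (hu : Sx b u) (he : Fx u e) (x : V κ) :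
    ∑ i, ⟪u i, x⟫_ℝ ^ 2 + ∑ l, ⟪e l, x⟫_ℝ ^ 2 = ‖x‖ ^ 2 := by
  have h := congrArg (fun z => ⟪z, x⟫_ℝ) (frame hu he x)
  simp only [inner_add_left, sum_inner, inner_smul_left, real_inner_self_eq_norm_sq] at h
  rw [← h]
  simp [sq]

/-- first component -/
noncomputable def p1 (κ : Type) [Fintype κ] (n : ℕ) : V (κ ⊕ Fin n) →ₗ[ℝ] V κ where
  toFun x := WithLp.toLp 2 fun k => x (Sum.inl k)
  map_add' x y := by ext k; simp
  map_smul' c x := by ext k; simp

/-- second component -/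
noncomputable def p2 (κ : Type) [Fintype κ] (n : ℕ) : V (κ ⊕ Fin n) →ₗ[ℝ] V (Fin n) where
  toFun x := WithLp.toLp 2 fun k => x (Sum.inr k)
  map_add' x y := by ext k; simp
  map_smul' c x := by ext k; simp

/-- the pair -/
noncomputable def pr (x : V κ) (t : V (Fin n)) : V (κ ⊕ Fin n) :=
  WithLp.toLp 2 fun k => Sum.elim (fun k => x k) (fun s => t s) k

theorem p1_pr (x : V κ) (t : V (Fin n)) : p1 κ n (pr x t) = x := by ext k; rfl

theorem p2_pr (x : V κ) (t : V (Fin n)) : p2 κ n (pr x t) = t := by ext k; rfl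

theorem norm_pp (x : V (κ ⊕ Fin n)) : ‖x‖ ^ 2 = ‖p1 κ n x‖ ^ 2 + ‖p2 κ n x‖ ^ 2 := by
  rw [EuclideanSpace.real_norm_sq_eq, EuclideanSpace.real_norm_sq_eq,
    EuclideanSpace.real_norm_sq_eq, Fintype.sum_sum_type]
  rfl

theorem mp_pp : MeasurePreserving (fun x : V (κ ⊕ Fin n) => (p1 κ n x, p2 κ n x)) volume
    (volume.prod volume) := by
  have h1 := EuclideanSpace.volume_preserving_symm_measurableEquiv_toLp (κ ⊕ Fin n)
  have h2 := volume_measurePreserving_sumPiEquivProdPi (fun _ : κ ⊕ Fin n => ℝ)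
  have h3 := (EuclideanSpace.volume_preserving_symm_measurableEquiv_toLp κ).symm
  have h4 := (EuclideanSpace.volume_preserving_symm_measurableEquiv_toLp (Fin n)).symm
  have h5 := (h3.prod h4).comp (h2.comp h1)
  exact h5

variable (b u e) in
/-- the embedding -/
noncomputable def Jm : V (κ ⊕ Fin n) →ₗ[ℝ] V ((ι ⊕ Fin q) × Fin 1) where
  toFun x := WithLp.toLp 2 fun p => Sum.elim
    (fun i => ⟪u i, p1 κ n x⟫_ℝ + p2 κ n x (b i) / Real.sqrt (Bs b (b i)).card)
    (fun l => ⟪e l, p1 κ n x⟫_ℝ) p.1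
  map_add' x y := by
    ext ⟨p, c⟩
    cases p with
    | inl i =>
      simp only [map_add, inner_add_right, PiLp.add_apply, Sum.elim_inl]
      ring
    | inr l =>
      simp only [map_add, inner_add_right, PiLp.add_apply, Sum.elim_inr]
  map_smul' c x := by
    ext ⟨p, c⟩
    cases p with
    | inl i =>
      simp only [map_smul, inner_smul_right, PiLp.smul_apply, Sum.elim_inl, smul_eq_mul,
        RingHom.id_apply]
      ring
    | inr l =>
      simp only [map_smul, inner_smul_right, PiLp.smul_apply, Sum.elim_inr, smul_eq_mul,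
        RingHom.id_apply]

theorem Jm_inl (x : V (κ ⊕ Fin n)) (i : ι) (c : Fin 1) : Jm b u e x (Sum.inl i, c) =
    ⟪u i, p1 κ n x⟫_ℝ + p2 κ n x (b i) / Real.sqrt (Bs b (b i)).card := rfl

theorem Jm_inr (x : V (κ ⊕ Fin n)) (l : Fin q) (c : Fin 1) : Jm b u e x (Sum.inr l, c) =
    ⟪e l, p1 κ n x⟫_ℝ := rfl

/-- sum over the blocks -/
theorem sum_blocks (F : ι → ℝ) : ∑ i, F i = ∑ s, ∑ i ∈ Bs b s, F i := by
  rw [← Finset.sum_fiberwise Finset.univ b F]
  rfl

theorem Jm_norm (hb : Function.Surjective b) (hu : Sx b u) (he : Fx u e) (x : V (κ ⊕ Fin n)) :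
    ‖Jm b u e x‖ = ‖x‖ := by
  rw [← sq_eq_sq₀ (norm_nonneg _) (norm_nonneg _), norm_pp, ← frame_norm hu he,
    EuclideanSpace.real_norm_sq_eq, EuclideanSpace.real_norm_sq_eq (p2 κ n x),
    Fintype.sum_prod_type, Fintype.sum_sum_type]
  simp only [Finset.univ_unique, Finset.sum_singleton]
  simp only [Jm_inl, Jm_inr]
  have h1 : ∀ i, (⟪u i, p1 κ n x⟫_ℝ + p2 κ n x (b i) / Real.sqrt (Bs b (b i)).card) ^ 2 =
      ⟪u i, p1 κ n x⟫_ℝ ^ 2 +
      (2 * (p2 κ n x (b i) / Real.sqrt (Bs b (b i)).card) * ⟪u i, p1 κ n x⟫_ℝ +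
      p2 κ n x (b i) ^ 2 / (Bs b (b i)).card) := by
    intro i
    have h2 : Real.sqrt (Bs b (b i)).card ^ 2 = (Bs b (b i)).card :=
      Real.sq_sqrt (Nat.cast_nonneg _)
    rw [add_sq, div_pow, h2]
    ring
  simp_rw [h1]
  rw [Finset.sum_add_distrib]
  have h3 : ∑ i, (2 * (p2 κ n x (b i) / Real.sqrt (Bs b (b i)).card) * ⟪u i, p1 κ n x⟫_ℝ +
      p2 κ n x (b i) ^ 2 / (Bs b (b i)).card) = ∑ s, p2 κ n x s ^ 2 := by
    rw [sum_blocks (b := b)]
    refine Finset.sum_congr rfl fun s _ => ?_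
    have h4 : ∀ i ∈ Bs b s, 2 * (p2 κ n x (b i) / Real.sqrt (Bs b (b i)).card) *
        ⟪u i, p1 κ n x⟫_ℝ + p2 κ n x (b i) ^ 2 / (Bs b (b i)).card =
        2 * (p2 κ n x s / Real.sqrt (Bs b s).card) * ⟪u i, p1 κ n x⟫_ℝ +
        p2 κ n x s ^ 2 / (Bs b s).card := by
      intro i hi
      rw [(mem_Bs b s i).1 hi]
    rw [Finset.sum_congr rfl h4, Finset.sum_add_distrib, ← Finset.mul_sum, sum_ux hu,
      Finset.sum_const, nsmul_eq_mul]
    have h5 := (card_Bs_pos hb s).ne'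
    field_simp
    ring
  rw [h3]
  ring

theorem Jm_surj (hb : Function.Surjective b) (hu : Sx b u) (he : Fx u e) :
    Function.Surjective (Jm b u e) := by
  intro y
  refine ⟨pr (∑ i, y (Sum.inl i, 0) • u i + ∑ l, y (Sum.inr l, 0) • e l)
    (WithLp.toLp 2 fun s => (∑ i ∈ Bs b s, y (Sum.inl i, 0)) / Real.sqrt (Bs b s).card), ?_⟩
  ext ⟨p, c⟩
  have hc : c = 0 := Subsingleton.elim _ _
  subst hc
  cases p with
  | inl j =>
    rw [Jm_inl, p1_pr, p2_pr, inner_add_right, inner_sum, inner_sum]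
    simp_rw [inner_smul_right]
    rw [gram_sum hu (fun i => y (Sum.inl i, 0)) j]
    simp only [he.perp, mul_zero, Finset.sum_const_zero, add_zero]
    have h5 := card_Bs_pos hb (b j)
    have h6 : Real.sqrt (Bs b (b j)).card * Real.sqrt (Bs b (b j)).card = (Bs b (b j)).card :=
      Real.mul_self_sqrt h5.le
    rw [div_div, h6]
    ring
  | inr l =>
    rw [Jm_inr, p1_pr, inner_add_right, inner_sum, inner_sum]
    simp_rw [inner_smul_right]
    have h1 : ∀ i, ⟪e l, u i⟫_ℝ = 0 := fun i => by rw [real_inner_comm]; exact he.perp i l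
    have h2 : ∀ m, ⟪e l, e m⟫_ℝ = if l = m then 1 else 0 := orthonormal_iff_ite.1 he.orth l
    simp [h1, h2]

/-- the isometry -/
noncomputable def iso (hb : Function.Surjective b) (hu : Sx b u) (he : Fx u e) :
    V (κ ⊕ Fin n) ≃ₗᵢ[ℝ] V ((ι ⊕ Fin q) × Fin 1) :=
  LinearIsometryEquiv.ofSurjective ⟨Jm b u e, Jm_norm hb hu he⟩ (Jm_surj hb hu he)

theorem iso_apply (hb : Function.Surjective b) (hu : Sx b u) (he : Fx u e)
    (x : V (κ ⊕ Fin n)) : iso hb hu he x = Jm b u e x := rfl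

end Pool.Agent.Q197.RA
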