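import Pool.Agent.Q197.RA.Core

/-!
# KLS for type A reflection groups: the final forms
-/

set_option autoImplicit false

namespace Pool.Agent.Q197.RA

open MeasureTheory Set
open scoped ENNReal InnerProductSpace
open Pool.Agent.H212R2.KLS (mu Bdd)
open Pool.Agent.TH594.KP (V GD SC Bs mem_Bs full mainc)

variable {κ ι : Type} [Fintype κ] [Fintype ι] [DecidableEq ι] {n q : ℕ}
variable {b : ι → Fin n} {u : ι → V κ}

/-- orthonormal basis of the fixed space -/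
theorem ex_fx (u : ι → V κ) : ∃ e : Fin (Module.finrank ℝ ((Submodule.span ℝ (range u))ᗮ :
    Submodule ℝ (V κ))) → V κ, Fx u e := by
  obtain ⟨B, hB⟩ : ∃ B : OrthonormalBasis (Fin (Module.finrank ℝ ((Submodule.span ℝ (range u))ᗮ :
    Submodule ℝ (V κ)))) ℝ ((Submodule.span ℝ (range u))ᗮ : Submodule ℝ (V κ)),
    B = stdOrthonormalBasis ℝ _ := ⟨_, rfl⟩
  refine ⟨fun l => (B l : V κ), ⟨?_, ?_, ?_⟩⟩
  · have h := B.orthonormal
    rw [orthonormal_iff_ite] at h ⊢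
    intro i j
    exact h i j
  · intro i l
    exact Submodule.inner_right_of_mem_orthogonal (K := Submodule.span ℝ (range u))
      (Submodule.subset_span (mem_range_self i)) (B l).2
  · intro x hx hx2
    have h1 : x ∈ ((Submodule.span ℝ (range u))ᗮ : Submodule ℝ (V κ)) := by
      rw [Submodule.mem_orthogonal]
      intro y hy
      induction hy using Submodule.span_induction with
      | mem y hy =>
        obtain ⟨i, rfl⟩ := hy
        exact hx i
      | zero => exact inner_zero_left _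
      | add y z _ _ hy hz => rw [inner_add_left, hy, hz, add_zero]
      | smul c y _ hy => rw [inner_smul_left, hy, mul_zero]
    have h2 : (⟨x, h1⟩ : ((Submodule.span ℝ (range u))ᗮ : Submodule ℝ (V κ))) = 0 := by
      have h3 := B.sum_repr' ⟨x, h1⟩
      rw [← h3]
      refine Finset.sum_eq_zero fun l _ => ?_
      have h4 : ⟪B l, (⟨x, h1⟩ : ((Submodule.span ℝ (range u))ᗮ : Submodule ℝ (V κ)))⟫_ℝ = 0 :=
        hx2 l
      rw [h4, zero_smul]
    exact congrArg Subtype.val h2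

/-- the factor -/
noncomputable def fac (q n m : ℕ) : ℝ := (q + 1) * (1 + Real.log n / m) ^ 2

theorem fac_pos (q n m : ℕ) : 0 < fac q n m := by
  unfold fac
  have h : 0 ≤ Real.log n := Real.log_natCast_nonneg n
  positivity

theorem sqrt_fac (q n m : ℕ) :
    Real.sqrt (fac q n m) = Real.sqrt (q + 1) * (1 + Real.log n / m) := by
  unfold fac
  have h : 0 ≤ Real.log n := Real.log_natCast_nonneg n
  rw [Real.sqrt_mul (by positivity), Real.sqrt_sq (by positivity)]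

variable (u) in
/-- the dimension of the fixed space -/
noncomputable def fd : ℕ := Module.finrank ℝ ((Submodule.span ℝ (range u))ᗮ : Submodule ℝ (V κ))

theorem scf : ∃ C : ℝ, 0 < C ∧ ∀ {κ ι : Type} [Fintype κ] [Fintype ι] [DecidableEq ι] {n m : ℕ}
    {b : ι → Fin n} {u : ι → V κ}, Function.Surjective b → Sx b u →
    1 ≤ n → 1 ≤ m → (∀ s, m ≤ (Bs b s).card) → SC (GS b u) (C * fac (fd u) n m) := by
  obtain ⟨C, hC, H⟩ := sc
  refine ⟨C, hC, ?_⟩
  intro κ ι _ _ _ n m b u hb hu hn hm hcard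
  obtain ⟨e, he⟩ := ex_fx u
  exact H hb hu he hn hm hcard

theorem gd_of {ρ : V κ → ℝ} (hnn : ∀ x, 0 ≤ ρ x) (hmeas : Measurable ρ)
    (hlc : ∀ x y, ∀ t : ℝ, 0 < t → t < 1 → ρ x ^ (1 - t) * ρ y ^ t ≤ ρ ((1 - t) • x + t • y))
    (hinv : ∀ k l, b k = b l → ∀ x, ρ (x - ⟪u k - u l, x⟫_ℝ • (u k - u l)) = ρ x) :
    GD (GS b u) ρ :=
  ⟨hnn, hmeas, hlc, by
    rintro g ⟨k, l, hkl, hg⟩ x
    rw [hg]
    exact hinv k l hkl x⟩

/-- sets invariant under the exchanges of two vertices -/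
theorem set_of (hu : Sx b u) {D : Set (V κ)}
    (hinv : ∀ k l, b k = b l → ∀ x, x ∈ D → x - ⟪u k - u l, x⟫_ℝ • (u k - u l) ∈ D) :
    ∀ g ∈ GS b u, ∀ x, g x ∈ D ↔ x ∈ D := by
  rintro g ⟨k, l, hkl, hg⟩ x
  have h1 : g (g x) = x := by
    rw [hg, hg]
    by_cases h : k = l
    · subst h
      simp
    · have h2 := norm_sub_sq hu k l hkl h
      rw [← real_inner_self_eq_norm_sq] at h2
      rw [inner_sub_right (u k - u l) x, inner_smul_right, h2]
      module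
  constructor
  · intro h
    rw [← h1, hg (g x)]
    exact hinv k l hkl _ h
  · intro h
    rw [hg]
    exact hinv k l hkl _ h

/-- the weak Poincare inequality, second moments, invariance under all isometries which preserve a
set `D` invariant under the reflections -/
theorem weakD : ∃ C : ℝ, 0 < C ∧ ∀ {κ ι : Type} [Fintype κ] [Fintype ι] [DecidableEq ι] {n m : ℕ}
    {b : ι → Fin n} {u : ι → V κ}, Function.Surjective b → Sx b u →
    1 ≤ n → 1 ≤ m → (∀ s, m ≤ (Bs b s).card) → ∀ D : Set (V κ),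
    (∀ g ∈ GS b u, ∀ x, g x ∈ D ↔ x ∈ D) →
    ∀ ρ : V κ → ℝ, (∀ x, 0 ≤ ρ x) → Measurable ρ →
    (∀ x y, ∀ t : ℝ, 0 < t → t < 1 → ρ x ^ (1 - t) * ρ y ^ t ≤ ρ ((1 - t) • x + t • y)) →
    (∀ e : V κ ≃ₗᵢ[ℝ] V κ, (∀ x, e x ∈ D ↔ x ∈ D) → ∀ x, ρ (e x) = ρ x) →
    mu ρ univ = 1 → ∀ s : ℝ, 0 < s → (∀ θ : V κ,
      ∫⁻ x, ENNReal.ofReal (⟪θ, x⟫_ℝ ^ 2) ∂(mu ρ) ≤ ENNReal.ofReal (s * ‖θ‖ ^ 2)) →
    ∀ v : V κ → ℝ, ContDiff ℝ 1 v → (∀ x, |v x| ≤ 1) →
    ENNReal.ofReal ((∫ x, (v x - ∫ y, v y ∂(mu ρ)) ^ 2 ∂(mu ρ)) ^ 2) ≤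
      ENNReal.ofReal (C * fac (fd u) n m * s) *
        ∫⁻ x, ENNReal.ofReal (‖fderiv ℝ v x‖ ^ 2) ∂(mu ρ) := by
  obtain ⟨C, hC, H⟩ := scf
  refine ⟨8 * C, by positivity, ?_⟩
  intro κ ι _ _ _ n m b u hb hu hn hm hcard D hD ρ hnn hmeas hlc hiso h1 s hs hmom v hv hvb
  have hG : GD (GS b u) ρ := ⟨hnn, hmeas, hlc, fun g hg x => hiso g (hD g hg) x⟩
  have key := mainc (mul_pos hC (fac_pos _ n m)) (H hb hu hn hm hcard) ρ hG h1 s hs hmom v hv hvb
  have e : 8 * (C * fac (fd u) n m) * s = 8 * C * fac (fd u) n m * s := by ring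
  rw [e] at key
  exact key

end Pool.Agent.Q197.RA
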