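import Pool.Agent.Q197.RA.Mes
import Pool.Agent.TH368.HX_HARDY0
import Pool.Agent.TH720.HX_SEQ0
import Pool.Agent.TH148.HX_TAIL0

/-!
# Local Poincare inequality and tails
-/

set_option autoImplicit false

namespace Pool.Agent.Q197.RA

open MeasureTheory Set
open scoped ENNReal InnerProductSpace
open Pool.Agent.H212R2.KLS (mu Bdd)
open Pool.Agent.H888R2.KT (LC St tw)
open Pool.Agent.H888R2.KT.G2x (mu_indicator integral_mu_mul mu_mono intg)
open Pool.Agent.TH594.KP (V GD GG swp Bs mem_Bs card_Bs_pos ev swp_apply inner_ev gd_indicator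
  tw_cont gd_smul)
open Pool.Agent.TH597.HX (dev)
open Pool.Agent.TH597.HX.Loc (ee)

variable {κ ι : Type} [Fintype κ] [Fintype ι] [DecidableEq ι] {n q : ℕ}
variable {b : ι → Fin n} {u : ι → V κ} {e : Fin q → V κ}

/-- integrals with respect to `mu` -/
theorem int_mu {F : Type*} [MeasureSpace F] (ρ g : F → ℝ) (h0 : ∀ x, 0 ≤ ρ x)
    (hm : Measurable ρ) : ∫ x, g x ∂(mu ρ) = ∫ x, g x * ρ x := by
  rw [mu, integral_withDensity_eq_integral_toReal_smul hm.ennreal_ofReal
    (ae_of_all _ fun x => ENNReal.ofReal_lt_top)]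
  refine integral_congr_ae (ae_of_all _ fun x => ?_)
  simp only [ENNReal.toReal_ofReal (h0 x), smul_eq_mul]
  ring

theorem cb_meas (n : ℕ) (δ : ℝ) : MeasurableSet (cb n δ) := (cb_closed n δ).measurableSet

theorem cb_bdd (n : ℕ) {δ : ℝ} (_hδ : 0 < δ) : cb n δ ⊆ Metric.closedBall 0 (Real.sqrt (n * δ ^ 2)) := by
  intro t ht
  rw [mem_closedBall_zero_iff, EuclideanSpace.norm_eq]
  refine Real.sqrt_le_sqrt ?_
  calc ∑ s, ‖t s‖ ^ 2 ≤ ∑ _s : Fin n, δ ^ 2 := Finset.sum_le_sum fun s _ => by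
        rw [Real.norm_eq_abs]
        exact pow_le_pow_left₀ (abs_nonneg _) (ht s) 2
    _ = _ := by simp

theorem cb_lt_top (n : ℕ) {δ : ℝ} (hδ : 0 < δ) : (volume : Measure (V (Fin n))) (cb n δ) < ⊤ :=
  (measure_mono (cb_bdd n hδ)).trans_lt measure_closedBall_lt_top

theorem cb_pos (n : ℕ) {δ : ℝ} (hδ : 0 < δ) : 0 < (volume : Measure (V (Fin n))) (cb n δ) := by
  refine (Metric.measure_ball_pos volume (0 : V (Fin n)) hδ).trans_le (measure_mono ?_)
  intro t ht s
  rw [mem_ball_zero_iff] at ht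
  have := PiLp.norm_apply_le t s
  rw [Real.norm_eq_abs] at this
  linarith

theorem ind_int_pos (n : ℕ) {δ : ℝ} (hδ : 0 < δ) (W : V (Fin n) → ℝ) (hW : Continuous W)
    (hW0 : ∀ t, 0 < W t) : 0 < ∫ t, (cb n δ).indicator W t := by
  rw [integral_indicator (cb_meas n δ)]
  have hc : IsCompact (cb n δ) :=
    (isCompact_closedBall _ _).of_isClosed_subset (cb_closed n δ) (cb_bdd n hδ)
  rw [setIntegral_pos_iff_support_of_nonneg_ae (ae_of_all _ fun t => (hW0 t).le)
    (hW.continuousOn.integrableOn_compact hc)]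
  have h1 : Function.support W = univ := by
    ext t
    simp [(hW0 t).ne']
  rw [h1, univ_inter]
  exact cb_pos n hδ

section ctx

variable (hb : Function.Surjective b) (hu : Sx b u) (he : Fx u e)

/-- integrals with respect to the extended density -/
theorem int_ex {ρ : V κ → ℝ} (hρ : GD (GS b u) ρ) (δ : ℝ) (f : V κ → ℝ) (W : V (Fin n) → ℝ) :
    ∫ y, f (A hb hu he y) * W (T hb hu he y) ∂(mu (ex hb hu he δ ρ)) =
      (∫ x, f x ∂(mu ρ)) * ∫ t, (cb n δ).indicator W t := by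
  have hG := gd_ex hb hu he hρ δ
  rw [int_mu _ _ hG.nonneg hG.meas, int_mu _ _ hρ.nonneg hρ.meas,
    ← int_prod hb hu he (fun x => f x * ρ x) ((cb n δ).indicator W)]
  refine integral_congr_ae (ae_of_all _ fun y => ?_)
  unfold ex
  by_cases h : T hb hu he y ∈ cb n δ
  · simp only [indicator, Set.mem_ofPred_eq, h, if_true]
    ring
  · simp only [indicator, Set.mem_ofPred_eq, h, if_false]
    ring

theorem lint_prod (f : V κ → ℝ≥0∞) (hf : Measurable f) (g : V (Fin n) → ℝ≥0∞)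
    (hg : Measurable g) :
    ∫⁻ y, f (A hb hu he y) * g (T hb hu he y) = (∫⁻ x, f x) * ∫⁻ t, g t := by
  have h := (E_mp hb hu he).lintegral_comp (f := fun z => f z.1 * g z.2)
    ((hf.comp measurable_fst).mul (hg.comp measurable_snd))
  simp only [E_apply] at h
  rw [h, lintegral_prod_mul hf.aemeasurable hg.aemeasurable]

theorem mass_ex {ρ : V κ → ℝ} (hρ : GD (GS b u) ρ) {δ : ℝ} (D : Set (V κ))
    (hD : MeasurableSet D) :
    mu (ex hb hu he δ ρ) {y | A hb hu he y ∈ D} = mu ρ D * volume (cb n δ) := by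
  have hDm : MeasurableSet {y | A hb hu he y ∈ D} := hD.preimage (A hb hu he).continuous.measurable
  rw [mu, withDensity_apply _ hDm, mu, withDensity_apply _ hD, ← lintegral_indicator hDm,
    ← lintegral_indicator hD]
  have h1 : ∀ y, ({y | A hb hu he y ∈ D}.indicator
      (fun a => ENNReal.ofReal (ex hb hu he δ ρ a))) y =
      (D.indicator (fun x => ENNReal.ofReal (ρ x)) (A hb hu he y)) *
        ((cb n δ).indicator (fun _ => (1 : ℝ≥0∞)) (T hb hu he y)) := by
    intro y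
    unfold ex
    by_cases h : T hb hu he y ∈ cb n δ <;> by_cases h2 : A hb hu he y ∈ D <;>
      simp [indicator, h, h2]
  rw [lintegral_congr h1, lint_prod hb hu he _ (hρ.meas.ennreal_ofReal.indicator hD) _
    (measurable_const.indicator (cb_meas n δ)), lintegral_indicator_const (cb_meas n δ) 1,
    one_mul]

theorem lc_ex {ρ : V κ → ℝ} (hρ : GD (GS b u) ρ) (hL : LC ρ) {δ : ℝ} (hδ : 0 < δ) :
    LC (ex hb hu he δ ρ) := by
  have hG := gd_ex hb hu he hρ δ
  have hm := mass_ex hb hu he hρ (δ := δ) univ MeasurableSet.univ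
  have h0 : {y | A hb hu he y ∈ (univ : Set (V κ))} = univ := by ext y; simp
  rw [h0] at hm
  refine ⟨hG.nonneg, hG.meas, hG.logc, ?_, ?_, ?_⟩
  · obtain ⟨R, hR⟩ := hL.bdd
    refine ⟨|R| + Real.sqrt (n * δ ^ 2), fun y hy => ?_⟩
    unfold ex
    by_cases h : T hb hu he y ∈ cb n δ
    · rw [indicator_of_mem (show y ∈ {y | T hb hu he y ∈ cb n δ} from h)]
      refine hR _ ?_
      by_contra hc
      rw [not_lt] at hc
      have h1 := norm_AT hb hu he y
      have h2 : ‖T hb hu he y‖ ≤ Real.sqrt (n * δ ^ 2) := by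
        have := cb_bdd n hδ h
        rwa [mem_closedBall_zero_iff] at this
      have h3 : ‖A hb hu he y‖ ≤ |R| := hc.trans (le_abs_self R)
      have h4 : 0 ≤ Real.sqrt (n * δ ^ 2) := Real.sqrt_nonneg _
      have h5 : 0 ≤ |R| := abs_nonneg R
      have h6 := norm_nonneg (A hb hu he y)
      have h7 := norm_nonneg (T hb hu he y)
      have h8 := norm_nonneg y
      nlinarith [mul_nonneg h5 h4]
    · rw [indicator_of_notMem (show y ∉ {y | T hb hu he y ∈ cb n δ} from h)]
  · rw [hm]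
    exact ENNReal.mul_ne_top hL.fin (cb_lt_top n hδ).ne
  · intro h
    rw [h] at hm
    have h1 : (mu ρ) univ ≠ 0 := by
      intro h2
      exact hL.ne (Measure.measure_univ_eq_zero.1 h2)
    have h2 := mul_ne_zero h1 (cb_pos n hδ).ne'
    exact h2 hm.symm

/-- sum of the distances of the coordinates of a block -/
noncomputable def Dv (b : ι → Fin n) (u : ι → V κ) (s : Fin n) (x : V κ) : ℝ :=
  ∑ i ∈ Bs b s, ∑ j ∈ Bs b s, |⟪u i, x⟫_ℝ - ⟪u j, x⟫_ℝ|

theorem dev_inl (s : Fin n) (y : V ((ι ⊕ Fin q) × Fin 1)) :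
    dev (bb q b) (Fin.castAdd q s) y = Dv b u s (A hb hu he y) := by
  unfold dev Dv
  simp only [Bs_inl, Finset.sum_map, Function.Embedding.coeFn_mk]
  refine Finset.sum_congr rfl fun i hi => Finset.sum_congr rfl fun j hj => ?_
  rw [coord_inl hb hu he, coord_inl hb hu he, (mem_Bs b s i).1 hi, (mem_Bs b s j).1 hj]
  congr 1
  ring

theorem dev_inr (l : Fin q) (y : V ((ι ⊕ Fin q) × Fin 1)) :
    dev (bb q b) (Fin.natAdd n l) y = 0 := by
  unfold dev
  simp only [Bs_inr, Finset.sum_singleton]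
  simp

/-- the tilt of the extended space -/
theorem tw_ext (K : ℝ) (τ : V (Fin q)) (y : V ((ι ⊕ Fin q) × Fin 1)) :
    tw (ee (bb q b)) K (WithLp.toLp 2 (Fin.append (0 : Fin n → ℝ) τ)) y =
      tw e K τ (A hb hu he y) * Real.exp (-((∑ s, T hb hu he y s ^ 2) / (2 * K))) := by
  unfold tw
  rw [← Real.exp_add, Fin.sum_univ_add]
  simp only [ee_inl hb hu he, ee_inr hb hu he, Fin.append_left, Fin.append_right, Pi.zero_apply,
    sub_zero]
  congr 1
  ring

end ctx

/-- the local Poincare inequality with a Gaussian tilt in the directions of the fixed space -/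
theorem loc1 : ∃ C : ℝ, 0 < C ∧ ∀ {κ ι : Type} [Fintype κ] [Fintype ι] [DecidableEq ι] {n q : ℕ}
    {b : ι → Fin n} {u : ι → V κ} {e : Fin q → V κ}, Function.Surjective b → Sx b u → Fx u e →
    ∀ ρ : V κ → ℝ, GD (GS b u) ρ → LC ρ → ∀ a : ℝ, 0 < a →
    (∀ x, ρ x ≠ 0 → ∀ s, Dv b u s x ≤ a * ((Bs b s).card : ℝ) ^ 2) →
    ∀ K : ℝ, 0 < K → C * a ^ 2 ≤ K → ∀ (τ : V (Fin q)) (f : V κ → ℝ), ContDiff ℝ 1 f →
    ∃ c : ℝ, ∫ x, (f x - c) ^ 2 * tw e K τ x ∂(mu ρ) ≤
      5 * K * ∫ x, ‖fderiv ℝ f x‖ ^ 2 * tw e K τ x ∂(mu ρ) := by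
  obtain ⟨C, hC, H⟩ := Pool.Agent.TH597.HX.Loc.inner Pool.Agent.TH368.hardy0
    Pool.Agent.TH720.seq0
  refine ⟨C, hC, ?_⟩
  intro κ ι _ _ _ n q b u e hb hu he ρ hρ hL a ha hsupp K hK hCK τ f hf
  obtain ⟨c, hc⟩ := H (bb_surj (q := q) hb) (ex hb hu he 1 ρ) (gd_ex hb hu he hρ 1)
    (lc_ex hb hu he hρ hL one_pos) a ha (by
      intro y hy j
      have h1 : ρ (A hb hu he y) ≠ 0 := by
        intro h2
        refine hy ?_
        unfold ex
        by_cases h : T hb hu he y ∈ cb n 1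
        · rw [indicator_of_mem (show y ∈ {y | T hb hu he y ∈ cb n 1} from h)]
          exact h2
        · rw [indicator_of_notMem (show y ∉ {y | T hb hu he y ∈ cb n 1} from h)]
      refine Fin.addCases (fun s => ?_) (fun l => ?_) j
      · rw [dev_inl hb hu he, card_inl]
        exact hsupp _ h1 s
      · rw [dev_inr, card_inr]
        positivity) K hK hCK (WithLp.toLp 2 (Fin.append (0 : Fin n → ℝ) τ))
    (fun y => f (A hb hu he y)) (hf.comp (A hb hu he).contDiff)
  refine ⟨c, ?_⟩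
  have hG := gd_ex hb hu he hρ 1
  have hLC := lc_ex hb hu he hρ hL one_pos
  obtain ⟨W, hW⟩ : ∃ W : V (Fin n) → ℝ, W = fun t => Real.exp (-((∑ s, t s ^ 2) / (2 * K))) :=
    ⟨_, rfl⟩
  have hWc : Continuous W := by rw [hW]; fun_prop
  have hW0 : ∀ t, 0 < W t := fun t => by rw [hW]; exact Real.exp_pos _
  have hWT : ∀ y, Real.exp (-((∑ s, T hb hu he y s ^ 2) / (2 * K))) = W (T hb hu he y) := by
    intro y
    rw [hW]
  have hI := ind_int_pos n (δ := 1) one_pos W hWc hW0
  have e1 : ∫ y, (f (A hb hu he y) - c) ^ 2 *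
      tw (ee (bb q b)) K (WithLp.toLp 2 (Fin.append (0 : Fin n → ℝ) τ)) y
      ∂(mu (ex hb hu he 1 ρ)) = (∫ x, (f x - c) ^ 2 * tw e K τ x ∂(mu ρ)) *
      ∫ t, (cb n 1).indicator W t := by
    rw [← int_ex hb hu he hρ 1 (fun x => (f x - c) ^ 2 * tw e K τ x) W]
    refine integral_congr_ae (ae_of_all _ fun y => ?_)
    simp only
    rw [tw_ext hb hu he, hWT]
    ring
  have e2 : ∫ y, ‖fderiv ℝ (fun y => f (A hb hu he y)) y‖ ^ 2 *
      tw (ee (bb q b)) K (WithLp.toLp 2 (Fin.append (0 : Fin n → ℝ) τ)) y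
      ∂(mu (ex hb hu he 1 ρ)) ≤ (∫ x, ‖fderiv ℝ f x‖ ^ 2 * tw e K τ x ∂(mu ρ)) *
      ∫ t, (cb n 1).indicator W t := by
    rw [← int_ex hb hu he hρ 1 (fun x => ‖fderiv ℝ f x‖ ^ 2 * tw e K τ x) W]
    have hfi : IsFiniteMeasure (mu (ex hb hu he 1 ρ)) := ⟨lt_top_iff_ne_top.2 hLC.fin⟩
    have hball : ∃ R, mu (ex hb hu he 1 ρ) (Metric.closedBall 0 R)ᶜ = 0 := by
      obtain ⟨R, hR⟩ := hLC.bdd
      refine ⟨R, ?_⟩
      rw [mu, withDensity_apply_eq_zero' (hG.meas.ennreal_ofReal.aemeasurable)]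
      refine measure_mono_null ?_ (measure_empty (μ := volume))
      intro x hx
      refine hx.1 ?_
      have : R < ‖x‖ := by simpa using hx.2
      simp [hR x this]
    have hfd : Continuous (fderiv ℝ f) := hf.continuous_fderiv (by norm_num)
    have hfa : ContDiff ℝ 1 (fun y => f (A hb hu he y)) := hf.comp (A hb hu he).contDiff
    have hfda : Continuous (fderiv ℝ (fun y => f (A hb hu he y))) :=
      hfa.continuous_fderiv (by norm_num)
    refine integral_mono (intg _ hball _ ?_) (intg _ hball _ ?_) fun y => ?_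
    · exact (hfda.norm.pow 2).mul (tw_cont _ K _)
    · exact ((((hfd.comp (A hb hu he).continuous).norm).pow 2).mul
        ((tw_cont e K τ).comp (A hb hu he).continuous)).mul (hWc.comp (T hb hu he).continuous)
    · simp only
      rw [tw_ext hb hu he, hWT, mul_assoc]
      refine mul_le_mul_of_nonneg_right ?_ (mul_nonneg (Real.exp_pos _).le (hW0 _).le)
      have h1 : fderiv ℝ (fun y => f (A hb hu he y)) y =
          (fderiv ℝ f (A hb hu he y)).comp (A hb hu he) := by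
        have h2 := ((hf.differentiable (by norm_num)).differentiableAt
          (x := A hb hu he y)).hasFDerivAt.comp y (A hb hu he).hasFDerivAt
        exact h2.fderiv
      rw [h1]
      refine pow_le_pow_left₀ (norm_nonneg _) ?_ 2
      refine (ContinuousLinearMap.opNorm_comp_le _ _).trans ?_
      have h3 := norm_A_le hb hu he
      exact mul_le_of_le_one_right (norm_nonneg _) h3
  rw [e1] at hc
  have h3 := hc.trans (mul_le_mul_of_nonneg_left e2 (by positivity : (0:ℝ) ≤ 5 * K))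
  rw [← mul_assoc] at h3
  exact le_of_mul_le_mul_right h3 hI

end Pool.Agent.Q197.RA
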