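import Pool.Agent.Q197.RA.Ext

/-!
# The extended density
-/

set_option autoImplicit false

namespace Pool.Agent.Q197.RA

open MeasureTheory Set
open scoped ENNReal InnerProductSpace
open Pool.Agent.H212R2.KLS (mu Bdd)
open Pool.Agent.H888R2.KT (LC St tw)
open Pool.Agent.H888R2.KT.G2x (mu_indicator integral_mu_mul mu_mono intg)
open Pool.Agent.TH594.KP (V GD GG swp Bs mem_Bs card_Bs_pos ev swp_apply inner_ev gd_indicator)
open Pool.Agent.TH597.HX (dev)
open Pool.Agent.TH597.HX.Loc (ee)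

variable {κ ι : Type} [Fintype κ] [Fintype ι] [DecidableEq ι] {n q : ℕ}
variable {b : ι → Fin n} {u : ι → V κ} {e : Fin q → V κ}

/-- the splitting as a measurable equivalence -/
noncomputable def spl (κ : Type) [Fintype κ] (n : ℕ) : V (κ ⊕ Fin n) ≃ᵐ V κ × V (Fin n) :=
  ((MeasurableEquiv.toLp 2 (κ ⊕ Fin n → ℝ)).symm.trans
    (MeasurableEquiv.sumPiEquivProdPi (fun _ : κ ⊕ Fin n => ℝ))).trans
    ((MeasurableEquiv.toLp 2 (κ → ℝ)).prodCongr (MeasurableEquiv.toLp 2 (Fin n → ℝ)))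

theorem spl_apply (x : V (κ ⊕ Fin n)) : spl κ n x = (p1 κ n x, p2 κ n x) := rfl

theorem spl_mp : MeasurePreserving (spl κ n) volume (volume.prod volume) := mp_pp

section ctx

variable (hb : Function.Surjective b) (hu : Sx b u) (he : Fx u e)

/-- component in `V κ` -/
noncomputable def A : V ((ι ⊕ Fin q) × Fin 1) →L[ℝ] V κ :=
  (LinearMap.toContinuousLinearMap (p1 κ n)).comp
    ((iso hb hu he).symm.toContinuousLinearEquiv : V ((ι ⊕ Fin q) × Fin 1) →L[ℝ] V (κ ⊕ Fin n))

/-- component in `ℝ^n` -/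
noncomputable def T : V ((ι ⊕ Fin q) × Fin 1) →L[ℝ] V (Fin n) :=
  (LinearMap.toContinuousLinearMap (p2 κ n)).comp
    ((iso hb hu he).symm.toContinuousLinearEquiv : V ((ι ⊕ Fin q) × Fin 1) →L[ℝ] V (κ ⊕ Fin n))

theorem A_def (y : V ((ι ⊕ Fin q) × Fin 1)) :
    A hb hu he y = p1 κ n ((iso hb hu he).symm y) := rfl

theorem T_def (y : V ((ι ⊕ Fin q) × Fin 1)) :
    T hb hu he y = p2 κ n ((iso hb hu he).symm y) := rfl

theorem norm_AT (y : V ((ι ⊕ Fin q) × Fin 1)) :
    ‖y‖ ^ 2 = ‖A hb hu he y‖ ^ 2 + ‖T hb hu he y‖ ^ 2 := by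
  rw [A_def, T_def, ← norm_pp, LinearIsometryEquiv.norm_map]

theorem norm_A_le : ‖A hb hu he‖ ≤ 1 := by
  refine ContinuousLinearMap.opNorm_le_bound _ zero_le_one fun y => ?_
  rw [one_mul]
  have h := norm_AT hb hu he y
  exact abs_le_of_sq_le_sq' (by nlinarith [sq_nonneg ‖T hb hu he y‖]) (norm_nonneg _) |>.2

theorem coord_inl (y : V ((ι ⊕ Fin q) × Fin 1)) (i : ι) (c : Fin 1) : y (Sum.inl i, c) =
    ⟪u i, A hb hu he y⟫_ℝ + T hb hu he y (b i) / Real.sqrt (Bs b (b i)).card := by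
  have h := Jm_inl (b := b) (u := u) (e := e) ((iso hb hu he).symm y) i c
  rw [← iso_apply hb hu he, LinearIsometryEquiv.apply_symm_apply] at h
  exact h

theorem coord_inr (y : V ((ι ⊕ Fin q) × Fin 1)) (l : Fin q) (c : Fin 1) : y (Sum.inr l, c) =
    ⟪e l, A hb hu he y⟫_ℝ := by
  have h := Jm_inr (b := b) (u := u) (e := e) ((iso hb hu he).symm y) l c
  rw [← iso_apply hb hu he, LinearIsometryEquiv.apply_symm_apply] at h
  exact h

/-- the whole splitting of the extended space -/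
noncomputable def E : V ((ι ⊕ Fin q) × Fin 1) ≃ᵐ V κ × V (Fin n) :=
  ((iso hb hu he).symm.toHomeomorph.toMeasurableEquiv).trans (spl κ n)

theorem E_apply (y : V ((ι ⊕ Fin q) × Fin 1)) : E hb hu he y = (A hb hu he y, T hb hu he y) := rfl

theorem E_mp : MeasurePreserving (E hb hu he) volume (volume.prod volume) :=
  spl_mp.comp (iso hb hu he).symm.measurePreserving

theorem int_E (F : V κ × V (Fin n) → ℝ) : ∫ y, F (A hb hu he y, T hb hu he y) =
    ∫ z, F z ∂(volume.prod volume) := (E_mp hb hu he).integral_comp' F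

theorem int_prod (f : V κ → ℝ) (g : V (Fin n) → ℝ) :
    ∫ y, f (A hb hu he y) * g (T hb hu he y) = (∫ x, f x) * ∫ t, g t := by
  rw [int_E hb hu he fun z => f z.1 * g z.2]
  exact integral_prod_mul f g

end ctx

variable (q) in
/-- the blocks of the extended space -/
def bb (b : ι → Fin n) : ι ⊕ Fin q → Fin (n + q) :=
  Sum.elim (fun i => Fin.castAdd q (b i)) (fun l => Fin.natAdd n l)

theorem bb_surj (hb : Function.Surjective b) : Function.Surjective (bb q b) := by
  intro j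
  refine Fin.addCases (fun s => ?_) (fun l => ?_) j
  · obtain ⟨i, hi⟩ := hb s
    exact ⟨Sum.inl i, by rw [← hi]; rfl⟩
  · exact ⟨Sum.inr l, rfl⟩

theorem bb_inl_inr (i : ι) (l : Fin q) : bb q b (Sum.inl i) ≠ bb q b (Sum.inr l) := by
  intro h
  have h1 : (Fin.castAdd q (b i)).val = (Fin.natAdd n l).val := congrArg Fin.val h
  rw [Fin.val_castAdd, Fin.val_natAdd] at h1
  have := (b i).isLt
  omega

theorem bb_inl (i j : ι) : bb q b (Sum.inl i) = bb q b (Sum.inl j) ↔ b i = b j := by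
  constructor
  · intro h
    exact Fin.castAdd_injective n q h
  · intro h
    show Fin.castAdd q (b i) = Fin.castAdd q (b j)
    rw [h]

theorem bb_inr (l m : Fin q) : bb q b (Sum.inr l) = bb q b (Sum.inr m) ↔ l = m := by
  constructor
  · intro h
    exact Fin.natAdd_injective _ _ h
  · intro h
    rw [h]

theorem Bs_inl (s : Fin n) : Bs (bb q b) (Fin.castAdd q s) = (Bs b s).map ⟨Sum.inl, Sum.inl_injective⟩ := by
  ext p
  rw [mem_Bs, Finset.mem_map]
  cases p with
  | inl i =>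
    constructor
    · intro h
      exact ⟨i, (mem_Bs b s i).2 (Fin.castAdd_injective n q h), rfl⟩
    · rintro ⟨j, hj, hj2⟩
      have : j = i := Sum.inl_injective hj2
      subst this
      show Fin.castAdd q (b j) = _
      rw [(mem_Bs b s j).1 hj]
  | inr l =>
    constructor
    · intro h
      have h1 : (Fin.natAdd n l).val = (Fin.castAdd q s).val := congrArg Fin.val h
      rw [Fin.val_castAdd, Fin.val_natAdd] at h1
      have := s.isLt
      omega
    · rintro ⟨j, _, hj2⟩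
      exact absurd hj2 (by simp)

theorem Bs_inr (l : Fin q) : Bs (bb q b) (Fin.natAdd n l) = {Sum.inr l} := by
  ext p
  rw [mem_Bs, Finset.mem_singleton]
  cases p with
  | inl i =>
    constructor
    · intro h
      exact absurd h (bb_inl_inr i l)
    · intro h
      exact absurd h (by simp)
  | inr m =>
    constructor
    · intro h
      rw [(bb_inr m l).1 h]
    · intro h
      rw [Sum.inr_injective h]
      rfl

theorem card_inl (s : Fin n) : (Bs (bb q b) (Fin.castAdd q s)).card = (Bs b s).card := by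
  rw [Bs_inl, Finset.card_map]

theorem card_inr (l : Fin q) : (Bs (bb q b) (Fin.natAdd n l)).card = 1 := by
  rw [Bs_inr, Finset.card_singleton]

section ctx

variable (hb : Function.Surjective b) (hu : Sx b u) (he : Fx u e)

theorem ee_inl (s : Fin n) (y : V ((ι ⊕ Fin q) × Fin 1)) :
    ⟪ee (bb q b) (Fin.castAdd q s), y⟫_ℝ = T hb hu he y s := by
  unfold ee
  rw [inner_ev]
  simp only [Bs_inl, Finset.sum_map, Function.Embedding.coeFn_mk, Finset.card_map]
  have h1 : ∀ i ∈ Bs b s, y (Sum.inl i, 0) = ⟪u i, A hb hu he y⟫_ℝ +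
      T hb hu he y s / Real.sqrt (Bs b s).card := by
    intro i hi
    rw [coord_inl hb hu he, (mem_Bs b s i).1 hi]
  rw [Finset.sum_congr rfl h1, Finset.sum_add_distrib, sum_ux hu, Finset.sum_const, nsmul_eq_mul]
  have h5 := card_Bs_pos hb s
  have h6 : Real.sqrt (Bs b s).card * Real.sqrt (Bs b s).card = (Bs b s).card :=
    Real.mul_self_sqrt h5.le
  have h7 : Real.sqrt (Bs b s).card ≠ 0 := (Real.sqrt_pos.2 h5).ne'
  rw [zero_add]
  rw [div_mul_eq_mul_div, one_mul, mul_div_assoc', div_div, h6, mul_comm, mul_div_assoc,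
    div_self h5.ne', mul_one]

theorem ee_inr (l : Fin q) (y : V ((ι ⊕ Fin q) × Fin 1)) :
    ⟪ee (bb q b) (Fin.natAdd n l), y⟫_ℝ = ⟪e l, A hb hu he y⟫_ℝ := by
  unfold ee
  rw [inner_ev]
  simp only [Bs_inr, Finset.sum_singleton, Finset.card_singleton]
  rw [coord_inr hb hu he]
  simp

include hu in
/-- exchange of two vertices of a simplex -/
theorem refl_u (k l : ι) (hkl : b k = b l) (h : k ≠ l) (x : V κ) (i : ι) :
    ⟪u i, x - ⟪u k - u l, x⟫_ℝ • (u k - u l)⟫_ℝ = ⟪u (Equiv.swap k l i), x⟫_ℝ := by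
  rw [inner_sub_right, inner_smul_right, inner_sub_right (u i), inner_sub_left]
  rw [hu.gram i k, hu.gram i l]
  by_cases h1 : i = k
  · subst h1
    rw [Equiv.swap_apply_left]
    simp [h, hkl]
  · by_cases h2 : i = l
    · subst h2
      rw [Equiv.swap_apply_right]
      simp [h1, hkl]
      ring
    · rw [Equiv.swap_apply_of_ne_of_ne h1 h2]
      rw [hkl]
      simp [h1, h2]

include he in
theorem refl_e (k l : ι) (x : V κ) (m : Fin q) :
    ⟪e m, x - ⟪u k - u l, x⟫_ℝ • (u k - u l)⟫_ℝ = ⟪e m, x⟫_ℝ := by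
  have h1 : ∀ i, ⟪e m, u i⟫_ℝ = 0 := fun i => by rw [real_inner_comm]; exact he.perp i m
  rw [inner_sub_right, inner_smul_right, inner_sub_right (e m), h1, h1]
  ring

theorem swp_iso (k l : ι) (hkl : b k = b l) (h : k ≠ l) (y : V ((ι ⊕ Fin q) × Fin 1)) :
    swp (δ := Fin 1) (Sum.inl k) (Sum.inl l) y = iso hb hu he
      (pr (A hb hu he y - ⟪u k - u l, A hb hu he y⟫_ℝ • (u k - u l)) (T hb hu he y)) := by
  ext ⟨p, c⟩
  rw [swp_apply, iso_apply]
  have hb' : ∀ i, b (Equiv.swap k l i) = b i := by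
    intro i
    by_cases h1 : i = k
    · subst h1
      rw [Equiv.swap_apply_left, hkl]
    · by_cases h2 : i = l
      · subst h2
        rw [Equiv.swap_apply_right, hkl]
      · rw [Equiv.swap_apply_of_ne_of_ne h1 h2]
  cases p with
  | inl i =>
    rw [Jm_inl, p1_pr, p2_pr, refl_u hu k l hkl h]
    have h1 : Equiv.swap (Sum.inl k : ι ⊕ Fin q) (Sum.inl l) (Sum.inl i) =
        Sum.inl (Equiv.swap k l i) := by
      by_cases h1 : i = k
      · subst h1
        rw [Equiv.swap_apply_left, Equiv.swap_apply_left]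
      · by_cases h2 : i = l
        · subst h2
          rw [Equiv.swap_apply_right, Equiv.swap_apply_right]
        · rw [Equiv.swap_apply_of_ne_of_ne h1 h2, Equiv.swap_apply_of_ne_of_ne]
          · exact fun h3 => h1 (Sum.inl_injective h3)
          · exact fun h3 => h2 (Sum.inl_injective h3)
    simp only [h1]
    rw [coord_inl hb hu he, hb' i]
  | inr m =>
    rw [Jm_inr, p1_pr, refl_e he]
    have h1 : Equiv.swap (Sum.inl k : ι ⊕ Fin q) (Sum.inl l) (Sum.inr m) = Sum.inr m :=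
      Equiv.swap_apply_of_ne_of_ne (by simp) (by simp)
    simp only [h1]
    rw [coord_inr hb hu he]

theorem A_swp (k l : ι) (hkl : b k = b l) (y : V ((ι ⊕ Fin q) × Fin 1)) :
    A hb hu he (swp (δ := Fin 1) (Sum.inl k) (Sum.inl l) y) =
      A hb hu he y - ⟪u k - u l, A hb hu he y⟫_ℝ • (u k - u l) := by
  by_cases h : k = l
  · subst h
    have h2 : swp (δ := Fin 1) (Sum.inl k : ι ⊕ Fin q) (Sum.inl k) y = y := by
      ext p
      rw [swp_apply, Equiv.swap_self]
      rfl
    rw [h2]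
    simp
  · rw [A_def, swp_iso hb hu he k l hkl h, LinearIsometryEquiv.symm_apply_apply, p1_pr]

theorem T_swp (k l : ι) (hkl : b k = b l) (y : V ((ι ⊕ Fin q) × Fin 1)) :
    T hb hu he (swp (δ := Fin 1) (Sum.inl k) (Sum.inl l) y) = T hb hu he y := by
  by_cases h : k = l
  · subst h
    have h2 : swp (δ := Fin 1) (Sum.inl k : ι ⊕ Fin q) (Sum.inl k) y = y := by
      ext p
      rw [swp_apply, Equiv.swap_self]
      rfl
    rw [h2]
  · rw [T_def, swp_iso hb hu he k l hkl h, LinearIsometryEquiv.symm_apply_apply, p2_pr]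

/-- all elements of `GG (Fin 1) (bb q b)` -/
theorem gg_cases {g : V ((ι ⊕ Fin q) × Fin 1) ≃ₗᵢ[ℝ] V ((ι ⊕ Fin q) × Fin 1)}
    (hg : g ∈ GG (Fin 1) (bb q b)) : (∀ y, g y = y) ∨ ∃ k l : ι, b k = b l ∧
      g = swp (δ := Fin 1) (Sum.inl k) (Sum.inl l) := by
  obtain ⟨k, l, hkl, rfl⟩ := hg
  cases k with
  | inl k =>
    cases l with
    | inl l => exact Or.inr ⟨k, l, (bb_inl k l).1 hkl, rfl⟩
    | inr l => exact absurd hkl (bb_inl_inr k l)
  | inr k =>
    cases l with
    | inl l => exact absurd hkl.symm (bb_inl_inr l k)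
    | inr l =>
      left
      intro y
      rw [(bb_inr k l).1 hkl]
      ext p
      rw [swp_apply, Equiv.swap_self]
      rfl

end ctx

variable (b u) in
/-- the exchanges of two vertices of a simplex -/
def GS : Set (V κ ≃ₗᵢ[ℝ] V κ) :=
  {g | ∃ k l, b k = b l ∧ ∀ x, g x = x - ⟪u k - u l, x⟫_ℝ • (u k - u l)}

theorem norm_sub_sq (hu : Sx b u) (k l : ι) (hkl : b k = b l) (h : k ≠ l) :
    ‖u k - u l‖ ^ 2 = 2 := by
  rw [← real_inner_self_eq_norm_sq, inner_sub_left, inner_sub_right, inner_sub_right, hu.gram,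
    hu.gram, hu.gram, hu.gram]
  have h' : ¬ l = k := fun h2 => h h2.symm
  simp [h, h', hkl]
  ring

theorem ex_g (hu : Sx b u) (k l : ι) (hkl : b k = b l) :
    ∃ g ∈ GS b u, ∀ x, g x = x - ⟪u k - u l, x⟫_ℝ • (u k - u l) := by
  by_cases h : k = l
  · subst h
    exact ⟨LinearIsometryEquiv.refl ℝ _, ⟨k, k, rfl, by simp⟩, by simp⟩
  · have h1 : ∀ x, (ℝ ∙ (u k - u l))ᗮ.reflection x = x - ⟪u k - u l, x⟫_ℝ • (u k - u l) := by
      intro x
      rw [Submodule.reflection_orthogonal_apply, Submodule.reflection_singleton_apply]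
      have h2 := norm_sub_sq hu k l hkl h
      have h3 : ((‖u k - u l‖ : ℝ)) ^ 2 = 2 := h2
      simp only [RCLike.ofReal_real_eq_id, id_eq, h3]
      rw [neg_sub, ← smul_assoc]
      congr 2
      rw [nsmul_eq_mul]
      push_cast
      ring
    exact ⟨_, ⟨k, l, hkl, h1⟩, h1⟩

theorem inv_refl (hu : Sx b u) {ρ : V κ → ℝ} (hρ : GD (GS b u) ρ) (k l : ι) (hkl : b k = b l)
    (x : V κ) : ρ (x - ⟪u k - u l, x⟫_ℝ • (u k - u l)) = ρ x := by
  obtain ⟨g, hg, hgx⟩ := ex_g hu k l hkl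
  rw [← hgx]
  exact hρ.inv g hg x

section ctx

variable (hb : Function.Surjective b) (hu : Sx b u) (he : Fx u e)

/-- the cube -/
def cb (n : ℕ) (δ : ℝ) : Set (V (Fin n)) := {t | ∀ s, |t s| ≤ δ}

theorem cb_closed (n : ℕ) (δ : ℝ) : IsClosed (cb n δ) := by
  unfold cb
  rw [Set.ofPred_forall]
  refine isClosed_iInter fun s => isClosed_le (by fun_prop) continuous_const

theorem cb_convex (n : ℕ) (δ : ℝ) : Convex ℝ (cb n δ) := by
  intro x hx y hy a c ha hc hac s
  have h1 : (a • x + c • y) s = a * x s + c * y s := rfl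
  rw [h1]
  calc |a * x s + c * y s| ≤ |a * x s| + |c * y s| := abs_add_le _ _
    _ = a * |x s| + c * |y s| := by rw [abs_mul, abs_mul, abs_of_nonneg ha, abs_of_nonneg hc]
    _ ≤ a * δ + c * δ := by
        have := hx s
        have := hy s
        gcongr
    _ = δ := by rw [← add_mul, hac, one_mul]

/-- the extended density -/
noncomputable def ex (δ : ℝ) (ρ : V κ → ℝ) : V ((ι ⊕ Fin q) × Fin 1) → ℝ :=
  {y | T hb hu he y ∈ cb n δ}.indicator fun y => ρ (A hb hu he y)

theorem gd_ext {ρ : V κ → ℝ} (hρ : GD (GS b u) ρ) :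
    GD (GG (Fin 1) (bb q b)) (fun y => ρ (A hb hu he y)) where
  nonneg y := hρ.nonneg _
  meas := hρ.meas.comp (A hb hu he).continuous.measurable
  logc x y t h0 h1 := by
    rw [map_add, map_smul, map_smul]
    exact hρ.logc _ _ t h0 h1
  inv g hg y := by
    rcases gg_cases hg with h | ⟨k, l, hkl, rfl⟩
    · rw [h]
    · rw [A_swp hb hu he k l hkl, inv_refl hu hρ k l hkl]

theorem gd_ex {ρ : V κ → ℝ} (hρ : GD (GS b u) ρ) (δ : ℝ) :
    GD (GG (Fin 1) (bb q b)) (ex hb hu he δ ρ) := by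
  refine gd_indicator (gd_ext hb hu he hρ) _ ?_ ?_ ?_
  · exact (cb_convex n δ).linear_preimage (T hb hu he).toLinearMap
  · exact ((cb_closed n δ).preimage (T hb hu he).continuous).measurableSet
  · intro g hg y
    rcases gg_cases hg with h | ⟨k, l, hkl, rfl⟩
    · rw [h]
    · show T hb hu he (swp (δ := Fin 1) (Sum.inl k) (Sum.inl l) y) ∈ cb n δ ↔
        T hb hu he y ∈ cb n δ
      rw [T_swp hb hu he k l hkl]

end ctx

end Pool.Agent.Q197.RA
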